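import Pool.Agent.Run7.h472.OH.Iface3

/-!
# OH/MOB (helper889): the trivial bound and Markov's inequality for the moment
-/

set_option autoImplicit false
open MeasureTheory ProbabilityTheory Filter Set
open scoped ENNReal Pointwise Topology

namespace Run7.h889.OH

open Pool.Agent.N662.FP Pool.Agent.Run7.h472.OH

theorem t_MOB (hW : S_WBD) (hM : S_MEAS) : S_MOB := by
  intro Ω _ _ X hX μ c C L hC a n hn g s hs
  set w : Ω → ℝ := fun ω => W μ L n 0 (env X ω) with hw
  have hw0 : ∀ ω, 0 ≤ w ω := fun ω => (hW μ c C L hC n hn 0 (env X ω)).2.1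
  have hw1 : ∀ ω, w ω ≤ C * (L + 1) * n := fun ω => (hW μ c C L hC n hn 0 (env X ω)).2.2.1
  have henv : Measurable (env X) := measurable_pi_iff.2 fun e => hX.meas e
  have hwm : Measurable w := (hM μ c C L hC n hn 0).comp henv
  have hB : 0 ≤ C * (L + 1) * (n : ℝ) := by
    have := hC.C_pos
    positivity
  have up : ∀ K : ℝ, C * (L + 1) * n ≤ K →
      ∫⁻ ω in {ω | g < w ω}, ENNReal.ofReal ((1 + w ω / s) ^ a) ∂(volume : Measure Ω) ≤
        ENNReal.ofReal ((1 + K / s) ^ a) * (volume : Measure Ω) {ω | g < w ω} := by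
    intro K hK
    rw [← setLIntegral_const]
    refine lintegral_mono fun ω => ENNReal.ofReal_le_ofReal ?_
    have h0 := hw0 ω
    have h1 := (hw1 ω).trans hK
    have h2 : w ω / s ≤ K / s := div_le_div_of_nonneg_right h1 hs.le
    have h3 : 0 ≤ w ω / s := div_nonneg h0 hs.le
    exact pow_le_pow_left₀ (by linarith) (by linarith) a
  have hfin : ∫⁻ ω in {ω | g < w ω}, ENNReal.ofReal ((1 + w ω / s) ^ a) ∂(volume : Measure Ω) ≠
      ⊤ := by
    refine ne_of_lt (lt_of_le_of_lt (up _ le_rfl) ?_)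
    exact ENNReal.mul_lt_top ENNReal.ofReal_lt_top (measure_lt_top _ _)
  refine ⟨ENNReal.toReal_nonneg, fun hK => ?_, fun u hu hgu => ?_⟩
  · have h1 := up s hK
    rw [div_self hs.ne'] at h1
    have h2 : (ENNReal.ofReal ((1 + 1 : ℝ) ^ a) * (volume : Measure Ω) {ω | g < w ω}).toReal =
        2 ^ a * G X μ L n g := by
      rw [ENNReal.toReal_mul, ENNReal.toReal_ofReal (by positivity)]
      norm_num [G, Measure.real, hw]
    rw [← h2]
    exact ENNReal.toReal_mono
      (ENNReal.mul_lt_top ENNReal.ofReal_lt_top (measure_lt_top _ _)).ne h1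
  · have hsub : {ω | u < w ω} ⊆ {ω | g < w ω} := fun ω hω => lt_of_le_of_lt hgu hω
    have hmu : MeasurableSet {ω | u < w ω} := measurableSet_lt measurable_const hwm
    have h1 : ENNReal.ofReal ((1 + u / s) ^ a) * (volume : Measure Ω) {ω | u < w ω} ≤
        ∫⁻ ω in {ω | g < w ω}, ENNReal.ofReal ((1 + w ω / s) ^ a) ∂(volume : Measure Ω) := by
      refine le_trans ?_ (lintegral_mono_set hsub)
      rw [← setLIntegral_const]
      refine setLIntegral_mono' hmu fun ω hω => ENNReal.ofReal_le_ofReal ?_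
      have hω' : u < w ω := hω
      have h2 : u / s ≤ w ω / s := div_le_div_of_nonneg_right hω'.le hs.le
      have h3 : 0 ≤ u / s := div_nonneg hu hs.le
      exact pow_le_pow_left₀ (by linarith) (by linarith) a
    have h2 : (ENNReal.ofReal ((1 + u / s) ^ a) * (volume : Measure Ω) {ω | u < w ω}).toReal =
        G X μ L n u * (1 + u / s) ^ a := by
      have h3 : 0 ≤ u / s := div_nonneg hu hs.le
      rw [ENNReal.toReal_mul, ENNReal.toReal_ofReal (by positivity), mul_comm]
      rfl
    rw [← h2]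
    exact ENNReal.toReal_mono hfin h1

end Run7.h889.OH
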