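import Pool.Agent.Run7.h472.OH.Iface3

/-!
# OH/STG (helper889): the box event controls the local deficits
-/

set_option autoImplicit false
open MeasureTheory ProbabilityTheory Filter Set
open scoped ENNReal Pointwise Topology

namespace Run7.h889.OH

open Pool.Agent.N662.FP Pool.Agent.Run7.h472.OH

/-- the passage time is at most the time of a nearest neighbour sequence -/
lemma D_le_tmS (hG : S_GE) (x : Env) (hx : ∀ e, 0 ≤ x e) (q : Sq)
    (hq : ∀ i : Fin q.1,
      |(q.2 i.succ).1 - (q.2 i.castSucc).1| + |(q.2 i.succ).2 - (q.2 i.castSucc).2| = 1) :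
    D x (q.2 0) (q.2 (Fin.last _)) ≤ tmS x q := by
  obtain ⟨m, q⟩ := q
  simp only at hq ⊢
  refine csInf_le (hG x hx _ _).2.1 ?_
  set p : ℕ → ℤ × ℤ := fun i => q ⟨min i m, by omega⟩ with hp
  have hs : ∀ i : Fin m, p i = q i.castSucc := fun i => by
    simp only [hp]
    congr 1
    ext
    simp [i.2.le]
  have hs' : ∀ i : Fin m, p (i + 1) = q i.succ := fun i => by
    simp only [hp]
    congr 1
    ext
    simp only [Fin.val_succ]
    exact min_eq_left i.2
  refine ⟨m, p, ?_, ?_, fun i hi => ?_, ?_⟩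
  · simp only [hp]
    congr 1
  · simp only [hp]
    congr 1
    ext
    simp
  · have h1 := hs ⟨i, hi⟩
    have h2 := hs' ⟨i, hi⟩
    have h3 := hq ⟨i, hi⟩
    simp only at h1 h2
    rw [h1, h2]
    exact h3
  · rw [Finset.sum_range, tmS]
    refine Finset.sum_congr rfl fun i _ => ?_
    rw [hs i, hs' i, max_eq_left (hx _)]

lemma nm_le_of_inR {L n : ℕ} {z : ℤ × ℤ} (h : InR L n 0 z) : (nm z : ℝ) ≤ (L : ℝ) * n := by
  obtain ⟨h1, h2⟩ := h
  simp only [Prod.fst_zero, Prod.snd_zero, mul_zero, sub_zero] at h1 h2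
  have h3 : (nm z : ℤ) ≤ (L : ℤ) * n := by
    unfold nm
    rw [Nat.cast_max, Int.natCast_natAbs, Int.natCast_natAbs]
    exact max_le h1 h2
  exact_mod_cast h3

theorem t_STG (hW : S_WBD) (hG : S_GE) (hA : S_AE) : S_STG := by
  intro Ω _ _ X hX μ c C L hC κ κ1 e hκ1 hκ hκ2 hS
  have hL : (0 : ℝ) < L := by
    have := hC.two_le
    exact_mod_cast (by omega : 0 < L)
  have ht : Tendsto (fun n : ℕ => (L : ℝ) * n) atTop atTop :=
    tendsto_natCast_atTop_atTop.const_mul_atTop hL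
  -- comparison of the powers
  have hpow : ∀ᶠ n : ℕ in atTop, ((L : ℝ) * n) ^ (1 - κ) ≤ (n : ℝ) ^ (1 - κ1) := by
    have h1 : Tendsto (fun n : ℕ => (n : ℝ) ^ (κ - κ1)) atTop atTop :=
      (tendsto_rpow_atTop (by linarith)).comp tendsto_natCast_atTop_atTop
    filter_upwards [h1.eventually_ge_atTop ((L : ℝ) ^ (1 - κ)), eventually_ge_atTop 1] with n h2 h3
    have hn : (0 : ℝ) < n := by exact_mod_cast h3
    rw [Real.mul_rpow hL.le hn.le]
    calc (L : ℝ) ^ (1 - κ) * (n : ℝ) ^ (1 - κ) ≤ (n : ℝ) ^ (κ - κ1) * (n : ℝ) ^ (1 - κ) :=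
          mul_le_mul_of_nonneg_right h2 (Real.rpow_nonneg hn.le _)
      _ = (n : ℝ) ^ (1 - κ1) := by
          rw [← Real.rpow_add hn]
          congr 1
          ring
  filter_upwards [ht.eventually hS, hpow, eventually_ge_atTop 1] with n h1 h2 h3
  refine le_trans ?_ h1
  unfold G
  refine ENNReal.toReal_mono (measure_ne_top _ _) (measure_mono_ae ?_)
  filter_upwards [hA Ω X hX] with ω hω hωW
  have hωW' : (n : ℝ) ^ (1 - κ1) < W μ L n 0 (env X ω) := hωW
  have hb := (hW μ c C L hC n h3 0 (env X ω)).1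
  by_cases hne : Nonempty {q : Sq // Val L n 0 q}
  · obtain ⟨⟨q, hq⟩, hlt⟩ := exists_lt_of_lt_ciSup hωW'
    simp only at hlt
    refine ⟨q.2 0, q.2 (Fin.last _), nm_le_of_inR (hq.inR _), nm_le_of_inR (hq.inR _), ?_⟩
    have h4 := D_le_tmS hG (env X ω) hω q hq.step
    linarith
  · exfalso
    rw [not_nonempty_iff] at hne
    unfold W at hωW'
    rw [Real.iSup_of_isEmpty] at hωW'
    have : (0 : ℝ) ≤ (n : ℝ) ^ (1 - κ1) := Real.rpow_nonneg (Nat.cast_nonneg n) _
    linarith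

end Run7.h889.OH
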